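import Pool.Agent.Q204.GS.Rel

/-!
# MP_18219f_mp (full answer to Q1: yes): the operational squeezing measure `G` is additive

`G(γA ⊕ γB) = G(γA) + G(γB)` for all covariance matrices `γA`, `γB` of `m` and `n` modes.
-/

set_option autoImplicit false

open Matrix Finset
open scoped ComplexOrder

namespace Pool.Agent.Results.MP_18219f_mp.Additivity

/-- The real matrices on the phase space of `n` modes; `(i, 0)` is the coordinate `Q_i` and
`(i, 1)` the coordinate `P_i`. -/
abbrev PMat (n : ℕ) : Type := Matrix (Fin n × Fin 2) (Fin n × Fin 2) ℝ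

/-- The symplectic form: the direct sum of `n` blocks `((0, 1), (-1, 0))`. -/
def sig (n : ℕ) : PMat n :=
  fun p q => if p.1 = q.1 then !![(0 : ℝ), 1; -1, 0] p.2 q.2 else 0

/-- `γ` is a covariance matrix: `γ` is real symmetric and `γ - i σ` is positive semidefinite. -/
def IsCov {n : ℕ} (γ : PMat n) : Prop :=
  γᵀ = γ ∧ (γ.map (fun x => (x : ℂ)) - Complex.I • (sig n).map (fun x => (x : ℂ))).PosSemidef

/-- The real symplectic matrices `S` with `γ ≥ Sᵀ S`. -/
def Feas {n : ℕ} (γ : PMat n) : Set (PMat n) :=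
  {S | Sᵀ * sig n * S = sig n ∧ (γ - Sᵀ * S).PosSemidef}

/-- The sum of the logarithms of the `n` largest singular values of `S`. -/
noncomputable def logs {n : ℕ} (S : PMat n) : ℝ :=
  ∑ i ∈ range n, Real.log ((toEuclideanLin S).singularValues i)

/-- The operational squeezing measure: the infimum of `logs S` over the real symplectic matrices
`S` with `γ ≥ Sᵀ S`. -/
noncomputable def G {n : ℕ} (γ : PMat n) : ℝ := sInf (logs '' Feas γ)

/-- The direct sum `γA ⊕ γB`: the block diagonal matrix on `m + n` modes whose first `m` modes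
carry `γA` and whose last `n` modes carry `γB`. -/
def dirSum {m n : ℕ} (γA : PMat m) (γB : PMat n) : PMat (m + n) :=
  fun p q => match finSumFinEquiv.symm p.1, finSumFinEquiv.symm q.1 with
    | Sum.inl i, Sum.inl j => γA (i, p.2) (j, q.2)
    | Sum.inr i, Sum.inr j => γB (i, p.2) (j, q.2)
    | _, _ => 0

theorem dirSum_eq {m n : ℕ} (γA : PMat m) (γB : PMat n) :
    dirSum γA γB = Pool.Agent.Q204.GS.dirSum γA γB := by
  ext p q
  unfold dirSum Pool.Agent.Q204.GS.dirSum Pool.Agent.Q204.GS.dsum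
  rcases finSumFinEquiv.symm p.1 with i | i <;> rcases finSumFinEquiv.symm q.1 with j | j <;> rfl

theorem logs_eq {n : ℕ} (S : PMat n) : logs S = Pool.Agent.Q204.GS.logs S := by
  unfold logs Pool.Agent.Q204.GS.logs
  rw [Fintype.card_fin]

theorem G_eq {n : ℕ} (γ : PMat n) : G γ = Pool.Agent.Q204.GS.G γ := by
  have h : (logs : PMat n → ℝ) = Pool.Agent.Q204.GS.logs := funext logs_eq
  unfold G Pool.Agent.Q204.GS.G
  rw [h]
  rfl

/-- **The operational squeezing measure is additive** (Q1, true).  For all `m, n` and all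
covariance matrices `γA` on `m` modes and `γB` on `n` modes, `γA ⊕ γB` is a covariance matrix, the
infima defining `G(γA)`, `G(γB)` and `G(γA ⊕ γB)` are over nonempty sets that are bounded below, and
`G(γA ⊕ γB) = G(γA) + G(γB)`. -/
theorem result (m n : ℕ) (γA : PMat m) (γB : PMat n) (hA : IsCov γA) (hB : IsCov γB) :
    IsCov (dirSum γA γB) ∧
    ((Feas γA).Nonempty ∧ BddBelow (logs '' Feas γA)) ∧
    ((Feas γB).Nonempty ∧ BddBelow (logs '' Feas γB)) ∧
    ((Feas (dirSum γA γB)).Nonempty ∧ BddBelow (logs '' Feas (dirSum γA γB))) ∧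
    G (dirSum γA γB) = G γA + G γB := by
  have key : ∀ {k : ℕ} (γ : PMat k), IsCov γ →
      (Feas γ).Nonempty ∧ BddBelow (logs '' Feas γ) := by
    intro k γ hγ
    refine ⟨Pool.Agent.Q204.GS.feas_nonempty hγ, ?_⟩
    have h : (logs : PMat k → ℝ) = Pool.Agent.Q204.GS.logs := funext logs_eq
    rw [h]
    exact Pool.Agent.Q204.GS.bdd γ
  obtain ⟨h1, h2⟩ := Pool.Agent.Q204.GS.main γA γB hA hB
  have h3 : IsCov (dirSum γA γB) := by
    rw [dirSum_eq]
    exact h1
  refine ⟨h3, key γA hA, key γB hB, key _ h3, ?_⟩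
  rw [G_eq, G_eq, G_eq, dirSum_eq]
  exact h2

end Pool.Agent.Results.MP_18219f_mp.Additivity
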